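import Pool.Agent.H99.LU.RDefs
import Pool.Agent.H3.LU.TopR
import Mathlib.Data.Sign.Basic

/-!
Project LU, part Y, Fuglede-Kadison route: definitions. The three-dimensional manifold is the one of
the polytope with 26 facets (the cube truncated at all edges and vertices).
-/

set_option autoImplicit false

open scoped BigOperators Topology
open Filter Pool.H3.L2

noncomputable section

namespace Pool.LU.FK

/-- nonzero sign vectors: the facets of the polytope -/
abbrev SV : Type := {x : Fin 3 → SignType // x ≠ 0}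

/-- the adjacency: different and comparable -/
def sadj (x y : SV) : Prop :=
  x ≠ y ∧ ((∀ i, x.1 i = 0 ∨ x.1 i = y.1 i) ∨ (∀ i, y.1 i = 0 ∨ y.1 i = x.1 i))

instance : DecidableRel sadj := fun x y => by unfold sadj; infer_instance

/-- the number of zeros: 0 for corners, 1 for edges, 2 for faces of the cube -/
def nz (x : SV) : ℕ := (Finset.univ.filter fun i => x.1 i = 0).card

/-- the product of the coordinates is 1 -/
def par (x : SV) : Bool := decide (x.1 0 * x.1 1 * x.1 2 = 1)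

/-- a corner with `par = true` -/
def v1 : SV := ⟨fun _ => 1, by decide⟩

/-- a corner with `par = false` -/
def v2 : SV := ⟨fun _ => -1, by decide⟩

/-- A finite set with involutions `ρ v`, commuting for adjacent vertices, and signs `χ v`, such that
`χ v` is changed by `ρ v` and not by `ρ u` for `u` adjacent to `v`. -/
structure YSet where
  X : Type
  [fin : Fintype X]
  [dec : DecidableEq X]
  ρ : SV → X → X
  χ : SV → X → ℤˣ
  ρρ : ∀ v x, ρ v (ρ v x) = x
  comm : ∀ u v, sadj u v → ∀ x, ρ u (ρ v x) = ρ v (ρ u x)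
  χ_self : ∀ v x, χ v (ρ v x) = - χ v x
  χ_adj : ∀ u v, sadj u v → ∀ x, χ u (ρ v x) = χ u x

attribute [instance] YSet.fin YSet.dec

variable (Y : YSet)

/-- 1-cells different from `v1`, `v2` -/
def C1a : Type := {p : SV × Y.X // (p.1 ≠ v1 ∧ p.1 ≠ v2) ∧ Y.χ p.1 p.2 = 1}

/-- 1-cells of `v1`, `v2` -/
def C1b : Type := {p : SV × Y.X // (p.1 = v1 ∨ p.1 = v2) ∧ Y.χ p.1 p.2 = 1}

/-- 2-cells containing a corner -/
def C2a : Type := {p : (SV × SV) × Y.X // (nz p.1.1 = 0 ∧ sadj p.1.1 p.1.2) ∧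
  Y.χ p.1.1 p.2 = 1 ∧ Y.χ p.1.2 p.2 = 1}

/-- 2-cells (edge, face) -/
def C2b : Type := {p : (SV × SV) × Y.X // (nz p.1.1 = 1 ∧ nz p.1.2 = 2 ∧ sadj p.1.1 p.1.2) ∧
  Y.χ p.1.1 p.2 = 1 ∧ Y.χ p.1.2 p.2 = 1}

/-- 3-cells (corner, edge, face) -/
def C3 : Type := {p : (SV × SV × SV) × Y.X // (nz p.1.1 = 0 ∧ nz p.1.2.1 = 1 ∧ nz p.1.2.2 = 2 ∧
  sadj p.1.1 p.1.2.1 ∧ sadj p.1.2.1 p.1.2.2 ∧ sadj p.1.1 p.1.2.2) ∧
  Y.χ p.1.1 p.2 = 1 ∧ Y.χ p.1.2.1 p.2 = 1 ∧ Y.χ p.1.2.2 p.2 = 1}

/-- 1-cells of corners different from `v1`, `v2` -/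
def CC : Type := {p : SV × Y.X // (nz p.1 = 0 ∧ p.1 ≠ v1 ∧ p.1 ≠ v2) ∧ Y.χ p.1 p.2 = 1}

instance : Fintype (C1a Y) := by classical exact (Subtype.fintype _)
instance : Fintype (C1b Y) := by classical exact (Subtype.fintype _)
instance : Fintype (C2a Y) := by classical exact (Subtype.fintype _)
instance : Fintype (C2b Y) := by classical exact (Subtype.fintype _)
instance : Fintype (C3 Y) := by classical exact (Subtype.fintype _)
instance : Fintype (CC Y) := by classical exact (Subtype.fintype _)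
instance : DecidableEq (C1a Y) := Classical.decEq _
instance : DecidableEq (C1b Y) := Classical.decEq _
instance : DecidableEq (C2a Y) := Classical.decEq _
instance : DecidableEq (C2b Y) := Classical.decEq _
instance : DecidableEq (C3 Y) := Classical.decEq _
instance : DecidableEq (CC Y) := Classical.decEq _

/-- the entries of `y ↦ y - ρ v y` -/
def df (v : SV) (y y' : Y.X) : ℝ := (if y' = y then 1 else 0) - (if y' = Y.ρ v y then 1 else 0)

/-- the boundary of the 2-cell `(a, b, y)`: coefficient of the 1-cell `(u, y')` -/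
def d2 (a b : SV) (y : Y.X) (u : SV) (y' : Y.X) : ℝ :=
  (if u = b then df Y a y y' else 0) - (if u = a then df Y b y y' else 0)

/-- the boundary of the 3-cell `(a, b, c, y)`: coefficient of the 2-cell `(s, t, y')` -/
def d3 (a b c : SV) (y : Y.X) (s t : SV) (y' : Y.X) : ℝ :=
  (if s = b ∧ t = c then df Y a y y' else 0) - (if s = a ∧ t = c then df Y b y y' else 0) +
    (if s = a ∧ t = b then df Y c y y' else 0)

/-- the cell as a pair -/
def e1 : C1a Y ⊕ C1b Y → SV × Y.X := Sum.elim (fun p => p.1) (fun p => p.1)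

/-- the cell as a pair -/
def e2 : C2a Y ⊕ C2b Y → (SV × SV) × Y.X := Sum.elim (fun p => p.1) (fun p => p.1)

/-- boundary matrices (acting on row vectors) -/
def D1 : Matrix (C1a Y ⊕ C1b Y) Y.X ℝ := Matrix.of fun p y' => df Y (e1 Y p).1 (e1 Y p).2 y'

/-- boundary matrices (acting on row vectors) -/
def D2 : Matrix (C2a Y ⊕ C2b Y) (C1a Y ⊕ C1b Y) ℝ := Matrix.of fun p q =>
  d2 Y (e2 Y p).1.1 (e2 Y p).1.2 (e2 Y p).2 (e1 Y q).1 (e1 Y q).2

/-- boundary matrices (acting on row vectors) -/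
def D3 : Matrix (C3 Y) (C2a Y ⊕ C2b Y) ℝ := Matrix.of fun p q =>
  d3 Y p.1.1.1 p.1.1.2.1 p.1.1.2.2 p.1.2 (e2 Y q).1.1 (e2 Y q).1.2 (e2 Y q).2

/-- the Laplacians -/
def Lap0 : Matrix Y.X Y.X ℝ := (D1 Y).transpose * D1 Y
/-- the Laplacians -/
def Lap1 : Matrix (C1a Y ⊕ C1b Y) (C1a Y ⊕ C1b Y) ℝ :=
  D1 Y * (D1 Y).transpose + (D2 Y).transpose * D2 Y
/-- the Laplacians -/
def Lap3 : Matrix (C3 Y) (C3 Y) ℝ := D3 Y * (D3 Y).transpose

/-- the main block of `D2`, transposed: rows 1-cells, columns 2-cells -/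
def AT : Matrix (C1a Y) (C2a Y) ℝ := ((D2 Y).toBlocks₁₁).transpose

/-- `det (Z Zᵀ + η)` -/
def gd {I J : Type} [Fintype I] [DecidableEq I] [Fintype J] (η : ℝ) (Z : Matrix I J ℝ) : ℝ :=
  (Z * Z.transpose + η • (1 : Matrix I I ℝ)).det

/-- A level function: the corners with `par = true` join the levels `2k` and `2k+1`, those with
`par = false` join `2k-1` and `2k`, and `χ` is `1` at the higher level. -/
structure Lvl (l : ℕ) where
  ν : Y.X → ZMod (2 * l)
  odd : ∀ v y, nz v = 0 → (Y.χ v y = 1 ↔ ((ν y).val % 2 = 1 ↔ par v = true))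
  dn : ∀ v y, nz v = 0 → Y.χ v y = 1 → ν (Y.ρ v y) = ν y - 1
  st : ∀ v y, nz v ≠ 0 → ν (Y.ρ v y) = ν y

/-- No reduced word of length less than `M` in the involutions of the faces has a fixed point. -/
def FreeW {X : Type} (ρ : SV → X → X) (M : ℕ) : Prop :=
  ∀ w : List SV, w ≠ [] → w.length < M → (∀ f ∈ w, nz f = 2) → w.IsChain (· ≠ ·) →
    ∀ y : X, w.foldl (fun y f => ρ f y) y ≠ y

variable {Y}

/-- the level preserving part of `AT` -/
def A0 {l : ℕ} (L : Lvl Y l) : Matrix (C1a Y) (C2a Y) ℝ := Matrix.of fun p q =>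
  if L.ν p.1.2 = L.ν q.1.2 then AT Y p q else 0

variable (Y)

/-- the matrix `Ξ` on the cells of the corners -/
def Xi : Matrix (CC Y) (CC Y) ℝ := Matrix.of fun p q =>
  ∑ f : SV, if nz f = 2 ∧ sadj p.1.1 f ∧ sadj q.1.1 f ∧ par p.1.1 = par q.1.1 then
    (if p.1.1 = q.1.1 then 1 else -1) * df Y f p.1.2 q.1.2 else 0

end Pool.LU.FK
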