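import Pool.Agent.H87.LUY.Lim
import Pool.Agent.H99.LU.OrFin
import Pool.Agent.H41.LU.Cube

/-!
Project LU, part Y, Fuglede-Kadison route: the manifold with nonzero torsion, from the modules.
-/

set_option autoImplicit false

open scoped BigOperators Topology
open Filter MeasureTheory Pool.H3.L2 Pool.H29.L2

noncomputable section

namespace Pool.LU.FK

/-- the error term as a function of `ε` -/
def eE (ε : ℝ) : ℝ := 31 * Real.log (1 + ε) + 7 * Real.log (1 / (1 - 11 * Real.sqrt ε))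

theorem eE_tendsto : Tendsto eE (𝓝[>] 0) (𝓝 0) := by
  have h1 : ContinuousAt eE 0 := by
    unfold eE
    have h2 : (1 : ℝ) - 11 * Real.sqrt 0 ≠ 0 := by simp
    have h3 : (1 : ℝ) / (1 - 11 * Real.sqrt 0) ≠ 0 := by simp
    have h4 : (1 : ℝ) + 0 ≠ 0 := by simp
    have c1 : ContinuousAt (fun ε : ℝ => Real.log (1 + ε)) 0 :=
      (continuousAt_const.add continuousAt_id).log h4
    have c2 : ContinuousAt (fun ε : ℝ => 1 - 11 * Real.sqrt ε) 0 :=
      continuousAt_const.sub (continuousAt_const.mul Real.continuous_sqrt.continuousAt)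
    have c3 : ContinuousAt (fun ε : ℝ => Real.log (1 / (1 - 11 * Real.sqrt ε))) 0 :=
      (continuousAt_const.div c2 h2).log h3
    exact (continuousAt_const.mul c1).add (continuousAt_const.mul c3)
  have h0 : eE 0 = 0 := by simp [eE]
  have h5 := h1.tendsto
  rw [h0] at h5
  exact h5.mono_left nhdsWithin_le_nhds

theorem index_top_fix : (2 * 1 + 1 : ℕ) = 3 := rfl

theorem cubC_betti_hh {V : Type} [Fintype V] [DecidableEq V] {adj : V → V → Prop}
    (hs : ∀ u v, adj u v → adj v u) (hi : ∀ v, ¬ adj v v) {W : Type} [Group W] (R : RA V adj W)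
    (o : V → ℕ) (ho : Function.Injective o) (g : (V → ℤˣ) → W) (hg : ∀ ε, R.χ (g ε) = ε)
    (N : Subgroup R.χ.ker) [N.Normal] [N.FiniteIndex] (h1 : N.map R.χ.ker.subtype ≤ R.χ.ker)
    (h2 : (N.map R.χ.ker.subtype).FiniteIndex) (F : Type) [Field F] (k : ℕ) :
    ((cubC hs hi R o ho g hg).cover N).betti F k =
      hh F o (cosX R (N.map R.χ.ker.subtype) h1 h2) Set.univ k := by
  obtain ⟨Φ, Φinj, Φrange, Φdeg, Φbd⟩ := re3K F R o g hg N h1 h2
  exact hk_eq_hh F (((cubC hs hi R o ho g hg).cover N).map (Int.castRingHom F)) _ o Φ Φinj Φrange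
    Φdeg Φbd k

theorem transport_b1 {P : SPoly 3 SV} (hP : P.Good) (adj : SV → SV → Prop) (e : P.adj = adj)
    (W : Type) [Group W] (R : RA SV adj W) :
    IsMfdGroup 3 R.χ.ker inferInstance ∧ HTop 3 R.χ.ker inferInstance ∧
    (∀ (X : XSet SV adj) (F : Type) [Field F], (2 : F) ≠ 0 → ∀ o : SV → ℕ, Function.Injective o →
      ∀ a b, a + b = 3 → hh F o X Set.univ a = hh F o X Set.univ b) ∧
    (∀ σ : Finset SV, Clq adj σ → σ.card ≤ 3) := by
  subst e
  exact ⟨partB1_main 3 SV P W R hP, hTop_ker P hP R, fun X F _ hF o ho a b hab =>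
    dua_main 3 SV P hP X F hF o ho a b hab, (dim 3 SV P hP).1⟩

theorem end_fk (brg : BRGStmt) (sgd : SGDStmt) (fin : FINStmt) (spl : SPLStmt) (bt0 : BT0Stmt)
    (ixi : IXIStmt) (msr : MSRStmt) (rho : RHOStmt) (chn : CHNStmt) :
    ∃ Y : PartR, Orient Y.Y := by
  classical
  obtain ⟨P, hP, hadj⟩ := cube_poly 3 (by norm_num)
  have e : P.adj = sadj := by
    funext x y
    exact propext (hadj x y)
  obtain ⟨W, iW, ⟨R⟩⟩ := rax SV sadj sadj_symm sadj_irrefl
  obtain ⟨b1, bT, bD, bC⟩ := transport_b1 hP sadj e W R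
  obtain ⟨g, hg⟩ := exists_sec R
  let o : SV → ℕ := fun v => nz v * 100 + (Fintype.equivFin SV v : ℕ)
  have hcard : Fintype.card SV ≤ 27 := by
    have h1 := Fintype.card_subtype_le (fun x : Fin 3 → SignType => x ≠ 0)
    have h2 : Fintype.card (Fin 3 → SignType) = 27 := by decide
    exact h1.trans h2.le
  have hlt : ∀ v : SV, (Fintype.equivFin SV v : ℕ) < 100 := fun v =>
    lt_of_lt_of_le (Fintype.equivFin SV v).2 (hcard.trans (by norm_num))
  have ho : Function.Injective o := by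
    intro u v h
    have h1 := hlt u
    have h2 := hlt v
    have h3 : nz u * 100 + (Fintype.equivFin SV u : ℕ) = nz v * 100 + (Fintype.equivFin SV v : ℕ) := h
    have h4 : (Fintype.equivFin SV u : ℕ) = (Fintype.equivFin SV v : ℕ) := by omega
    exact (Fintype.equivFin SV).injective (Fin.ext h4)
  have ho' : ∀ u v, nz u < nz v → o u < o v := by
    intro u v h
    have h1 := hlt u
    show nz u * 100 + (Fintype.equivFin SV u : ℕ) < nz v * 100 + (Fintype.equivFin SV v : ℕ)
    omega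
  have hC := cubC_isRes sadj_symm sadj_irrefl R o ho g hg
  obtain ⟨c, hc1, hc2⟩ := chn W R
  haveI : Infinite R.χ.ker := inf SV sadj sadj_symm W R v1 v2 (by decide) (by decide)
  obtain ⟨i1, i2, i3⟩ := idx SV sadj sadj_symm W R
  have hfin := c.fin
  have hnorm := c.normal
  let cW : WChain R.χ.ker :=
    { N := fun i => (c.N i).subgroupOf R.χ.ker
      normal := fun i => (hnorm i).subgroupOf _
      fin := fun i => by
        haveI := hfin i
        infer_instance
      anti := fun i j hij => Subgroup.comap_mono (c.anti hij)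
      inf := by
        have h1 : (⨅ i, (c.N i).subgroupOf R.χ.ker) = (⨅ i, c.N i).subgroupOf R.χ.ker := by
          unfold Subgroup.subgroupOf
          rw [Subgroup.comap_iInf]
        rw [h1, c.inf]
        exact Subgroup.bot_subgroupOf _ }
  obtain ⟨c', θ, hθ, hcc⟩ := cW.exists_strict (fun _ => True) (Eventually.frequently (by simp))
  have hcc' : ∀ k, c'.N (k + 1) = (c.N (θ k)).subgroupOf R.χ.ker := fun k => (hcc k).1
  -- Betti numbers
  have hb : ∀ (N : Subgroup R.χ.ker) [N.Normal] [N.FiniteIndex] (a b : ℕ), a + b = 3 →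
      ((CC0 R o ho g hg).cover N).betti ℝ a = ((CC0 R o ho g hg).cover N).betti ℝ b := by
    intro N _ _ a b hab
    obtain ⟨g1, g2⟩ := i2 N inferInstance
    rw [cubC_betti_hh sadj_symm sadj_irrefl R o ho g hg N g2 g1 ℝ a,
      cubC_betti_hh sadj_symm sadj_irrefl R o ho g hg N g2 g1 ℝ b]
    exact bD _ ℝ two_ne_zero o ho a b hab
  have hidx := ixi _ c'
  have hB0 : Tendsto (fun i => (((CC0 R o ho g hg).cover (c'.N i)).betti ℝ 0 : ℝ) /
      ((c'.N i).index : ℝ)) atTop (𝓝 0) := by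
    refine squeeze_zero (fun i => by positivity) (fun i => ?_) (tendsto_const_nhds.div_atTop hidx :
      Tendsto (fun i => (1 : ℝ) / ((c'.N i).index : ℝ)) atTop (𝓝 0))
    haveI := c'.normal i
    haveI := c'.fin i
    refine div_le_div_of_nonneg_right ?_ (Nat.cast_nonneg _)
    exact_mod_cast bt0 _ (CC0 R o ho g hg) hC (c'.N i)
  have hB3 : Tendsto (fun i => (((CC0 R o ho g hg).cover (c'.N i)).betti ℝ 3 : ℝ) /
      ((c'.N i).index : ℝ)) atTop (𝓝 0) := by
    refine hB0.congr fun i => ?_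
    rw [hb (c'.N i) 0 3 rfl]
  -- the main statement for the measures
  have main : ∀ μ : ℕ → Measure ℝ, (∀ j, (CC0 R o ho g hg).IsSpectral j (μ j)) →
      μ 0 {0} = 0 ∧ μ 3 {0} = 0 ∧ μ 1 {0} = 0 ∧
      2 * ∫ x, Real.log x ∂(μ 0) + ∫ x, Real.log x ∂(μ 3) +
        2 ^ Fintype.card SV * Real.log 2 ≤ ∫ x, Real.log x ∂(μ 1) := by
    intro μ hμ
    obtain ⟨z0, l0⟩ := luck (hμ 0) hB0
    obtain ⟨z3, l3⟩ := luck (hμ 3) hB3
    obtain ⟨R0, hR0⟩ := isSpectral_on (hμ 0)
    obtain ⟨R1, hR1⟩ := isSpectral_on (hμ 1)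
    obtain ⟨R3, hR3⟩ := isSpectral_on (hμ 3)
    have hm := msr (max R0 (max R1 R3)) (2 ^ Fintype.card SV) (Real.log 2) (μ 0) (μ 1) (μ 3) eE
      (hR0.mono (le_max_left _ _)) (hR1.mono ((le_max_left _ _).trans (le_max_right _ _)))
      (hR3.mono ((le_max_right _ _).trans (le_max_right _ _))) (by positivity) z0 z3
      ((integrableOn_log hR0).1 l0) ((integrableOn_log hR3).1 l3) eE_tendsto ?_
    · exact ⟨z0, z3, hm.1, hm.2.2⟩
    · have hIoo : Set.Ioo (0 : ℝ) (1 / 200) ∈ 𝓝[>] (0 : ℝ) := Ioo_mem_nhdsGT (by norm_num)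
      filter_upwards [hIoo] with ε hε
      obtain ⟨he0, he1⟩ := hε
      have hsq : 0 < Real.sqrt ε := Real.sqrt_pos.2 he0
      have hsq2 : Real.sqrt ε ^ 2 = ε := Real.sq_sqrt he0.le
      have hsq3 : Real.sqrt ε < 1 / 14 := by
        nlinarith
      have hr : 0 < 1 - 11 * Real.sqrt ε := by linarith
      have hr1 : 1 - 11 * Real.sqrt ε < 1 := by linarith
      have hs : (0 : ℝ) < 1 / (1 + ε ^ 2) := by positivity
      have hs1 : (1 : ℝ) / (1 + ε ^ 2) < 1 := by
        rw [div_lt_one (by positivity)]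
        have : 0 < ε ^ 2 := by positivity
        linarith
      have h101 : 101 * ε ≤ (1 - (1 - 11 * Real.sqrt ε)) ^ 2 / (1 - 11 * Real.sqrt ε) := by
        rw [le_div_iff₀ hr]
        have : (1 - (1 - 11 * Real.sqrt ε)) ^ 2 = 121 * (Real.sqrt ε) ^ 2 := by ring
        rw [this, hsq2]
        nlinarith
      have hsε : (1 - 1 / (1 + ε ^ 2)) ^ 2 / (1 / (1 + ε ^ 2)) ≤ ε ^ 3 := by
        have h1 : (1 - 1 / (1 + ε ^ 2)) ^ 2 / (1 / (1 + ε ^ 2)) = ε ^ 4 / (1 + ε ^ 2) := by
          have : (1 + ε ^ 2 : ℝ) ≠ 0 := by positivity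
          field_simp
          ring
        rw [h1, div_le_iff₀ (by positivity)]
        have h2 : 0 < ε ^ 3 := by positivity
        nlinarith [mul_pos h2 (sq_pos_of_pos he0)]
      have key := lim_ineq R o ho g hg brg sgd fin idx spl ho' c hc1 hc2 c' θ hθ hcc' μ hμ ε
        (1 - 11 * Real.sqrt ε) (1 / (1 + ε ^ 2)) he0 (by linarith) hr hr1 hs hs1 h101 hsε
      have e1 : (2 : ℝ) ^ Fintype.card SV * (Real.log 2 - eE ε) =
          2 ^ Fintype.card SV * Real.log 2 - 2 ^ Fintype.card SV *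
            (31 * Real.log (1 + ε) + 7 * Real.log (1 / (1 - 11 * Real.sqrt ε))) := by
        unfold eE
        ring
      rw [e1]
      linarith
  -- existence of the measures, acyclicity
  choose ν hν using fun j => exists_spectral (CC0 R o ho g hg) c' j
  obtain ⟨n0, n3, n1, -⟩ := main ν hν
  have hB1 : Tendsto (fun i => (((CC0 R o ho g hg).cover (c'.N i)).betti ℝ 1 : ℝ) /
      ((c'.N i).index : ℝ)) atTop (𝓝 0) := by
    have h1 := (Pool.H71.L2.luck_eq (hν 1) c').1
    have h2 : (ν 1).real {0} = 0 := by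
      rw [Measure.real, n1]
      rfl
    rwa [h2] at h1
  have hB2 : Tendsto (fun i => (((CC0 R o ho g hg).cover (c'.N i)).betti ℝ 2 : ℝ) /
      ((c'.N i).index : ℝ)) atTop (𝓝 0) := by
    refine hB1.congr fun i => ?_
    rw [hb (c'.N i) 1 2 rfl]
  have hB4 : ∀ (N : Subgroup R.χ.ker) [N.Normal] [N.FiniteIndex] (j : ℕ), 3 < j →
      ((CC0 R o ho g hg).cover N).betti ℝ j = 0 := by
    intro N _ _ j hj
    obtain ⟨g1, g2⟩ := i2 N inferInstance
    rw [cubC_betti_hh sadj_symm sadj_irrefl R o ho g hg N g2 g1 ℝ j]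
    refine hh_eq_zero ℝ o _ _ _ fun σ hσ _ h => ?_
    have := bC σ hσ
    omega
  have acyc : ∀ j, Tendsto (fun i => (((CC0 R o ho g hg).cover (c'.N i)).betti ℝ j : ℝ) /
      ((c'.N i).index : ℝ)) atTop (𝓝 0) := by
    intro j
    rcases Nat.lt_or_ge 3 j with hj | hj
    · refine (tendsto_const_nhds (x := (0 : ℝ))).congr fun i => ?_
      rw [hB4 (c'.N i) j hj, Nat.cast_zero, zero_div]
    · interval_cases j
      · exact hB0
      · exact hB1
      · exact hB2
      · exact hB3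
  have hrho : RhoNe (CC0 R o ho g hg) := by
    intro μ hμ hz h0
    obtain ⟨-, -, -, hineq⟩ := main μ hμ
    have hlog : ∀ j, Integrable Real.log (μ j) := by
      intro j
      obtain ⟨Rj, hRj⟩ := isSpectral_on (hμ j)
      exact (integrableOn_log hRj).1 (Pool.H71.L2.luck_eq (hμ j) c').2
    have hdeg : ∀ s : (CC0 R o ho g hg).S, (CC0 R o ho g hg).deg s ≤ 3 := fun s => bC s.1.1 s.2.1
    have h1 := rho _ (CC0 R o ho g hg) μ hdeg hμ hz hlog
    rw [h0, mul_zero] at h1
    have h2 : (0 : ℝ) < 2 ^ Fintype.card SV * Real.log 2 := by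
      have := Real.log_pos (by norm_num : (1 : ℝ) < 2)
      positivity
    linarith
  exact exists_partR_or (k := 1) b1 (CC0 R o ho g hg) hC
    { N := c'.N
      normal := c'.normal
      fin := c'.fin
      anti := c'.anti.antitone
      inf := c'.inf } acyc hrho bT

end Pool.LU.FK
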