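import Pool.Agent.H87.LUY.Stmts

/-!
Project LU, part Y, Fuglede-Kadison route: the inequality at a finite level, from the modules.
-/

set_option autoImplicit false

open scoped BigOperators Topology
open Filter MeasureTheory Pool.H3.L2 Pool.H29.L2

noncomputable section

namespace Pool.LU.FK

theorem posDef_add {I : Type} [Fintype I] [DecidableEq I] {A : Matrix I I ℝ} (hA : A.PosSemidef)
    {η : ℝ} (hη : 0 < η) : (A + η • (1 : Matrix I I ℝ)).PosDef := by
  refine Matrix.PosDef.posSemidef_add hA ?_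
  exact Matrix.PosDef.one.smul hη

theorem gram_psd {I J : Type} [Fintype I] [Fintype J] (Z : Matrix I J ℝ) :
    (Z * Z.transpose).PosSemidef := by
  have := Matrix.posSemidef_self_mul_conjTranspose Z
  rwa [Matrix.conjTranspose_eq_transpose_of_trivial] at this

theorem gd_pos {I J : Type} [Fintype I] [DecidableEq I] [Fintype J] (Z : Matrix I J ℝ) {η : ℝ}
    (hη : 0 < η) : 0 < gd η Z :=
  (posDef_add (gram_psd Z) hη).det_pos

theorem sq_psd {I : Type} [Fintype I] [DecidableEq I] {A : Matrix I I ℝ} (hA : A.transpose = A) :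
    (A ^ 2).PosSemidef := by
  have := gram_psd A
  rwa [hA, ← pow_two] at this

theorem lap0_symm (Y : YSet) : (Lap0 Y).transpose = Lap0 Y := by
  unfold Lap0
  rw [Matrix.transpose_mul, Matrix.transpose_transpose]

theorem lap3_symm (Y : YSet) : (Lap3 Y).transpose = Lap3 Y := by
  unfold Lap3
  rw [Matrix.transpose_mul, Matrix.transpose_transpose]

theorem lap1_psd (Y : YSet) : (Lap1 Y).PosSemidef := by
  unfold Lap1
  refine (gram_psd (D1 Y)).add ?_
  have := gram_psd (D2 Y).transpose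
  rwa [Matrix.transpose_transpose] at this

theorem log_split {a b c d e f g h : ℝ} {n : ℕ} (ha : 0 < a) (hb : 0 < b) (hc : 0 < c) (hd : 0 < d)
    (he : 0 < e) (hf : 0 < f) (hg : 0 < g) (hh : 0 < h)
    (H : a * b * c ≤ d * e * f ^ n * g * h) :
    Real.log a + Real.log b + Real.log c ≤
      Real.log d + Real.log e + n * Real.log f + Real.log g + Real.log h := by
  have h1 := Real.log_le_log (by positivity) H
  rwa [Real.log_mul (by positivity) hc.ne', Real.log_mul ha.ne' hb.ne',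
    Real.log_mul (by positivity) hh.ne', Real.log_mul (by positivity) hg.ne',
    Real.log_mul (by positivity) (by positivity), Real.log_mul hd.ne' he.ne', Real.log_pow] at h1

theorem fin_arith {P0 P3 gA P1 P3' x lε la lr u ga gz w g0 t2 K : ℝ}
    (lF : P0 + P3 + gA ≤ P1 + P3' + 31 * x * lε + ga + gz)
    (h1 : ga ≤ x * lr + 2 * u) (h2 : gz ≤ 6 * x * lr + 12 * u)
    (hc : g0 ≤ gA + K) (h3 : x * t2 - 6 * w ≤ g0)
    (e : la = 31 * x * lε + (x * lr + 2 * u) + (6 * x * lr + 12 * u) + 6 * w + K) :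
    P0 + P3 + x * t2 ≤ P1 + P3' + la := by
  linarith

theorem fin_ineq (fui : FUIStmt) (cpx : CPXStmt) (cnt : CNTStmt) (bnd : BNDStmt) (aat : AATStmt)
    (zzt : ZZTStmt) (acu : ACUStmt) (axi : AXIStmt) (xie : XIEStmt) : FINStmt := by
  intro Y l L M ε r s hl hM hF hε hε1 hr hr1 hs hs1 h101 hsε
  obtain ⟨n1, n2, n3, n4, n5, n6⟩ := cnt Y
  obtain ⟨b1, b2, b3⟩ := bnd Y
  obtain ⟨p1, p2⟩ := cpx Y
  set x : ℝ := (Fintype.card Y.X : ℝ) with hx
  have hη : (0 : ℝ) < ε ^ 3 := by positivity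
  have h0 := fui Y.X (C1a Y) (C1b Y) (C2a Y) (C2b Y) (C3 Y) (D1 Y) (D2 Y) (D3 Y) 100 ε hε
    (by norm_num) p1 p2 n2 (by rw [n4, n5]) (by rw [n1, n3]) b1 b2
  -- positivity
  have q0 : 0 < ((Lap0 Y) ^ 2 + (ε ^ 3) • (1 : Matrix Y.X Y.X ℝ)).det :=
    (posDef_add (sq_psd (lap0_symm Y)) hη).det_pos
  have q3 : 0 < ((Lap3 Y) ^ 2 + (ε ^ 3) • (1 : Matrix (C3 Y) (C3 Y) ℝ)).det :=
    (posDef_add (sq_psd (lap3_symm Y)) hη).det_pos
  have q1 : 0 < (Lap1 Y + ε • (1 : Matrix (C1a Y ⊕ C1b Y) (C1a Y ⊕ C1b Y) ℝ)).det :=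
    (posDef_add (lap1_psd Y) hε).det_pos
  have q3' : 0 < (Lap3 Y + ε • (1 : Matrix (C3 Y) (C3 Y) ℝ)).det :=
    (posDef_add (gram_psd (D3 Y)) hε).det_pos
  have qA : 0 < gd (ε ^ 3) (AT Y) := gd_pos _ hη
  have hδ : (0 : ℝ) < ε * (1 + 100) := by positivity
  have qa := gd_pos (Matrix.of fun (i : Y.X) (j : C1b Y) => D1 Y (Sum.inr j) i) hδ
  have qz := gd_pos (Matrix.of fun (i : C2b Y) (j : C3 Y) => D3 Y j (Sum.inr i)) hδ
  have hδr : ε * (1 + 100) ≤ (1 - r) ^ 2 / r := by linarith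
  have ha := aat Y l L r (ε * (1 + 100)) hl hr hr1 hδ.le hδr
  have hz := zzt Y l L r (ε * (1 + 100)) hl hr hr1 hδ.le hδr
  have hc := acu Y l L (ε ^ 3) hl hη
  rw [← hx] at hc
  have hxi := axi Y l L (ε ^ 3) hl hη
  have hxe := xie Y l L M s (ε ^ 3) hl hM hF hs hs1 hsε
  have hr' : (0 : ℝ) < 1 / r := by positivity
  -- logarithms
  have la : Real.log (gd (ε * (1 + 100)) (Matrix.of fun (i : Y.X) (j : C1b Y) => D1 Y (Sum.inr j) i))
      ≤ x * Real.log (1 / r) + 2 * x * r ^ (2 * l) / (1 - r) := by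
    have := Real.log_le_log qa ha
    rwa [Real.log_mul (pow_pos hr' _).ne' (Real.exp_pos _).ne', Real.log_pow, Real.log_exp] at this
  have lz : Real.log (gd (ε * (1 + 100)) (Matrix.of fun (i : C2b Y) (j : C3 Y) => D3 Y j (Sum.inr i)))
      ≤ 6 * x * Real.log (1 / r) + 12 * x * r ^ (2 * l) / (1 - r) := by
    have := Real.log_le_log qz hz
    rw [Real.log_mul (pow_pos hr' _).ne' (Real.exp_pos _).ne', Real.log_pow, Real.log_exp] at this
    push_cast at this
    exact this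
  have lA : x * Real.log 2 - 6 * x * s ^ M / (1 - s) ≤ Real.log (gd (ε ^ 3) (A0 L)) := by
    have := Real.log_le_log (Real.exp_pos _) (hxe.trans hxi)
    rwa [Real.log_exp] at this
  have lF : Real.log ((Lap0 Y) ^ 2 + (ε ^ 3) • (1 : Matrix Y.X Y.X ℝ)).det +
      Real.log ((Lap3 Y) ^ 2 + (ε ^ 3) • (1 : Matrix (C3 Y) (C3 Y) ℝ)).det +
      Real.log (gd (ε ^ 3) (AT Y)) ≤
      Real.log (Lap1 Y + ε • (1 : Matrix (C1a Y ⊕ C1b Y) (C1a Y ⊕ C1b Y) ℝ)).det +
      Real.log (Lap3 Y + ε • (1 : Matrix (C3 Y) (C3 Y) ℝ)).det +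
      31 * x * Real.log (1 + ε) +
      Real.log (gd (ε * (1 + 100)) (Matrix.of fun (i : Y.X) (j : C1b Y) => D1 Y (Sum.inr j) i)) +
      Real.log (gd (ε * (1 + 100))
        (Matrix.of fun (i : C2b Y) (j : C3 Y) => D3 Y j (Sum.inr i))) := by
    have h1 := log_split q0 q3 qA q1 q3' (by positivity : (0 : ℝ) < 1 + ε) qa qz h0
    have e0 : ((Fintype.card (C1a Y) + Fintype.card (C3 Y) + Fintype.card (C2a Y) +
        Fintype.card Y.X : ℕ) : ℝ) = 31 * x := by
      rw [n1, n3, n5]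
      push_cast
      ring
    rw [e0] at h1
    exact h1
  refine fin_arith (x := x) (lε := Real.log (1 + ε)) (lr := Real.log (1 / r)) (t2 := Real.log 2)
    (u := x * r ^ (2 * l) / (1 - r)) (w := x * s ^ M / (1 - s)) lF
    (la.trans (le_of_eq (by ring))) (lz.trans (le_of_eq (by ring))) hc
    ((le_of_eq (by ring)).trans lA) ?_
  ring

end Pool.LU.FK
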