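import Pool.Agent.H87.LUY.Fin
import Pool.Agent.H99.LU.ResZ

/-!
Project LU, part Y, Fuglede-Kadison route: the inequality for the covers of the cubical complex.
-/

set_option autoImplicit false

open scoped BigOperators Topology
open Filter MeasureTheory Pool.H3.L2 Pool.H29.L2

noncomputable section

namespace Pool.LU.FK

theorem cos_equiv {V : Type} [DecidableEq V] {adj : V → V → Prop} {W : Type} [Group W]
    (R : RA V adj W) (N N' : Subgroup W) (e : N = N') (h1 : N ≤ R.χ.ker)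
    (h2 : N.FiniteIndex) (h1' : N' ≤ R.χ.ker) (h2' : N'.FiniteIndex) :
    ∃ ψ : (cosX R N h1 h2).X ≃ (cosX R N' h1' h2').X,
      ∀ v y, ψ ((cosX R N h1 h2).ρ v y) = (cosX R N' h1' h2').ρ v (ψ y) := by
  subst e
  exact ⟨Equiv.refl _, fun _ _ => rfl⟩

theorem foldl_conj {X X' : Type} (ρ : SV → X → X) (ρ' : SV → X' → X') (φ : X → X')
    (h : ∀ v y, φ (ρ v y) = ρ' v (φ y)) (w : List SV) (y : X) :
    φ (w.foldl (fun y f => ρ f y) y) = w.foldl (fun y f => ρ' f y) (φ y) := by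
  induction w generalizing y with
  | nil => rfl
  | cons a w ih =>
    rw [List.foldl_cons, List.foldl_cons, ih, h]

theorem freeW_conj {X X' : Type} (ρ : SV → X → X) (ρ' : SV → X' → X') (φ : X ≃ X')
    (h : ∀ v y, φ (ρ v y) = ρ' v (φ y)) (M : ℕ) (hF : FreeW ρ' M) : FreeW ρ M := by
  intro w hw hl hf hc y h1
  apply hF w hw hl hf hc (φ y)
  rw [← foldl_conj ρ ρ' φ h, h1]

section

theorem sadj_symm (u v : SV) (h : sadj u v) : sadj v u := ⟨h.1.symm, h.2.symm⟩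

theorem sadj_irrefl (v : SV) : ¬ sadj v v := fun h => h.1 rfl

variable {W : Type} [Group W] (R : RA SV sadj W) (o : SV → ℕ) (ho : Function.Injective o)
  (g : (SV → ℤˣ) → W) (hg : ∀ ε, R.χ (g ε) = ε)

/-- the cubical complex -/
abbrev CC0 : BCx (GR R.χ.ker) := Pool.LU.cubC sadj_symm sadj_irrefl R o ho g hg

/-- the error term -/
def err (ε r s : ℝ) (l M : ℕ) : ℝ :=
  31 * Real.log (1 + ε) + 7 * Real.log (1 / r) +
      14 * r ^ (2 * l) / (1 - r) + 6 * s ^ M / (1 - s) + 9 / l * Real.log ((100 + ε ^ 3) / ε ^ 3)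

/-- `log det (Δ_k + ε)` of a cover -/
def ldet {G : Type} [Group G] (C : BCx (GR G)) (N : Subgroup G) [N.Normal] [N.FiniteIndex] (k : ℕ)
    (ε : ℝ) : ℝ :=
  Real.log (((lapZk (C.cover N) k).map (Int.cast : ℤ → ℝ) + ε • (1 : Matrix _ _ ℝ)).det)

/-- `log det (Δ_k² + ε)` of a cover -/
def ldet2 {G : Type} [Group G] (C : BCx (GR G)) (N : Subgroup G) [N.Normal] [N.FiniteIndex] (k : ℕ)
    (ε : ℝ) : ℝ :=
  Real.log ((((lapZk (C.cover N) k).map (Int.cast : ℤ → ℝ)) ^ 2 + ε • (1 : Matrix _ _ ℝ)).det)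

theorem level_ineq (brg : BRGStmt) (sgd : SGDStmt) (fin : FINStmt) (idx : IDXStmt)
    (ho' : ∀ u v, nz u < nz v → o u < o v)
    (N0 : Subgroup W) (h1 : N0 ≤ R.χ.ker) (h2 : N0.FiniteIndex)
    (Y : YSet) (φ : Y.X ≃ (cosX R N0 h1 h2).X)
    (hφ : ∀ v y, φ (Y.ρ v y) = (cosX R N0 h1 h2).ρ v (φ y)) (l : ℕ) (L : Lvl Y l) (hl : 1 ≤ l)
    (M : ℕ) (hM : 2 ≤ M) (hF : FreeW (cosX R N0 h1 h2).ρ M) (N : Subgroup R.χ.ker) [N.Normal]
    [N.FiniteIndex] (hN : N = N0.subgroupOf R.χ.ker) (ε r s : ℝ) (hε : 0 < ε) (hε1 : ε ≤ 1)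
    (hr : 0 < r) (hr1 : r < 1) (hs : 0 < s) (hs1 : s < 1) (h101 : 101 * ε ≤ (1 - r) ^ 2 / r)
    (hsε : (1 - s) ^ 2 / s ≤ ε ^ 3) :
    ldet2 (CC0 R o ho g hg) N 0 (ε ^ 3) + ldet2 (CC0 R o ho g hg) N 3 (ε ^ 3) +
      (2 ^ Fintype.card SV * (N.index : ℝ)) * Real.log 2 ≤
    ldet (CC0 R o ho g hg) N 1 ε + ldet (CC0 R o ho g hg) N 3 ε +
      (2 ^ Fintype.card SV * (N.index : ℝ)) * err ε r s l M := by
  obtain ⟨i1, i2, i3⟩ := idx SV sadj sadj_symm W R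
  obtain ⟨g1, g2⟩ := i2 N inferInstance
  have e0 : N.map R.χ.ker.subtype = N0 := by
    rw [hN, Subgroup.subgroupOf_map_subtype]
    exact inf_eq_left.2 h1
  obtain ⟨ψ, hψ⟩ := cos_equiv R _ _ e0 g2 g1 h1 h2
  have hφ' : ∀ v y, (φ.trans ψ.symm) (Y.ρ v y) =
      (cosX R (N.map R.χ.ker.subtype) g2 g1).ρ v ((φ.trans ψ.symm) y) := by
    intro v y
    rw [Equiv.trans_apply, Equiv.trans_apply, hφ, Equiv.symm_apply_eq, hψ, Equiv.apply_symm_apply]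
  obtain ⟨⟨e0', σ0, k0⟩, ⟨e1', σ1, k1⟩, e3', σ3, k3⟩ := brg W R o ho ho' g hg
    (cubD_mul sadj_symm sadj_irrefl R o ho g hg) (fun s t h => rea_deg R g hg o s t h) N g2 g1 Y
    (φ.trans ψ.symm) hφ'
  have hcard : (Fintype.card Y.X : ℝ) = 2 ^ Fintype.card SV * (N.index : ℝ) := by
    obtain ⟨c1, c2⟩ := i3 N0 h1 h2
    rw [Fintype.card_congr φ, c1, c2, hN]
    push_cast
    rfl
  have key := fin Y l L M ε r s hl hM (freeW_conj _ _ φ hφ M hF) hε hε1 hr hr1 hs hs1 h101 hsε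
  have q0 := (sgd _ _ ((lapZk ((CC0 R o ho g hg).cover N) 0).map (Int.cast : ℤ → ℝ)) (Lap0 Y)
    e0' σ0 k0 (ε ^ 3)).2
  have q1 := (sgd _ _ ((lapZk ((CC0 R o ho g hg).cover N) 1).map (Int.cast : ℤ → ℝ)) (Lap1 Y)
    e1' σ1 k1 ε).1
  have q3 := sgd _ _ ((lapZk ((CC0 R o ho g hg).cover N) 3).map (Int.cast : ℤ → ℝ)) (Lap3 Y)
    e3' σ3 k3
  rw [← q0, ← q1, ← (q3 ε).1, ← (q3 (ε ^ 3)).2, hcard] at key
  exact key

end

end Pool.LU.FK
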