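import Pool.Agent.H87.LUY.Lev
import Pool.Agent.H71.L2.LuckEq

/-!
Project LU, part Y, Fuglede-Kadison route: the inequality in the limit.
-/

set_option autoImplicit false

open scoped BigOperators Topology
open Filter MeasureTheory Pool.H3.L2 Pool.H29.L2

noncomputable section

namespace Pool.LU.FK

theorem err_le {ε r s : ℝ} (hr : 0 < r) (hr1 : r < 1) (hε : 0 < ε) (l M k : ℕ) (hk : k < l) :
    err ε r s l M ≤ 31 * Real.log (1 + ε) + 7 * Real.log (1 / r) + 14 * r ^ k / (1 - r) +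
      6 * s ^ M / (1 - s) + 9 / ((k : ℝ) + 1) * Real.log ((100 + ε ^ 3) / ε ^ 3) := by
  unfold err
  have h1 : r ^ (2 * l) ≤ r ^ k := pow_le_pow_of_le_one hr.le hr1.le (by omega)
  have h2 : (0 : ℝ) < 1 - r := by linarith
  have h3 : 14 * r ^ (2 * l) / (1 - r) ≤ 14 * r ^ k / (1 - r) := by
    gcongr
  have h4 : (9 : ℝ) / l ≤ 9 / ((k : ℝ) + 1) := by
    have : ((k : ℝ) + 1) ≤ l := by exact_mod_cast hk
    gcongr
  have h5 : 0 ≤ Real.log ((100 + ε ^ 3) / ε ^ 3) := by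
    apply Real.log_nonneg
    rw [one_le_div (by positivity)]
    linarith
  have h6 := mul_le_mul_of_nonneg_right h4 h5
  linarith

section

variable {W : Type} [Group W] (R : RA SV sadj W) (o : SV → ℕ) (ho : Function.Injective o)
  (g : (SV → ℤˣ) → W) (hg : ∀ ε, R.χ (g ε) = ε)

theorem lim_ineq (brg : BRGStmt) (sgd : SGDStmt) (fin : FINStmt) (idx : IDXStmt) (spl : SPLStmt)
    (ho' : ∀ u v, nz u < nz v → o u < o v) (c : NChain R)
    (hc1 : ∀ i, ∃ (Y : YSet) (φ : Y.X ≃ (c.X i).X) (l : ℕ),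
      (∀ v y, φ (Y.ρ v y) = (c.X i).ρ v (φ y)) ∧ i < l ∧ Nonempty (Lvl Y l))
    (hc2 : ∀ M : ℕ, ∀ᶠ i in atTop, FreeW (c.X i).ρ M) (c' : ResChain R.χ.ker) (θ : ℕ → ℕ)
    (hθ : StrictMono θ) (hcc : ∀ k, c'.N (k + 1) = (c.N (θ k)).subgroupOf R.χ.ker)
    (μ : ℕ → Measure ℝ) (hμ : ∀ j, (CC0 R o ho g hg).IsSpectral j (μ j)) (ε r s : ℝ) (hε : 0 < ε)
    (hε1 : ε ≤ 1) (hr : 0 < r) (hr1 : r < 1) (hs : 0 < s) (hs1 : s < 1)
    (h101 : 101 * ε ≤ (1 - r) ^ 2 / r) (hsε : (1 - s) ^ 2 / s ≤ ε ^ 3) :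
    ∫ x, Real.log (x ^ 2 + ε ^ 3) ∂(μ 0) + ∫ x, Real.log (x ^ 2 + ε ^ 3) ∂(μ 3) +
      2 ^ Fintype.card SV * Real.log 2 ≤
    ∫ x, Real.log (x + ε) ∂(μ 1) + ∫ x, Real.log (x + ε) ∂(μ 3) +
      2 ^ Fintype.card SV * (31 * Real.log (1 + ε) + 7 * Real.log (1 / r)) := by
  set C := CC0 R o ho g hg with hC
  have hη : (0 : ℝ) < ε ^ 3 := by positivity
  have t0 := (tendsto_add_atTop_iff_nat 1).2 (spl _ C c' 0 (μ 0) (hμ 0) (ε ^ 3) hη).2
  have t3 := (tendsto_add_atTop_iff_nat 1).2 (spl _ C c' 3 (μ 3) (hμ 3) (ε ^ 3) hη).2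
  have t1 := (tendsto_add_atTop_iff_nat 1).2 (spl _ C c' 1 (μ 1) (hμ 1) ε hε).1
  have t3' := (tendsto_add_atTop_iff_nat 1).2 (spl _ C c' 3 (μ 3) (hμ 3) ε hε).1
  set κ : ℝ := 2 ^ Fintype.card SV with hκ
  have hκ0 : 0 < κ := by positivity
  set Lc : ℝ := Real.log ((100 + ε ^ 3) / ε ^ 3) with hLc
  have stepM : ∀ M : ℕ, 2 ≤ M →
      ∫ x, Real.log (x ^ 2 + ε ^ 3) ∂(μ 0) + ∫ x, Real.log (x ^ 2 + ε ^ 3) ∂(μ 3) +
        κ * Real.log 2 ≤
      ∫ x, Real.log (x + ε) ∂(μ 1) + ∫ x, Real.log (x + ε) ∂(μ 3) +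
        κ * (31 * Real.log (1 + ε) + 7 * Real.log (1 / r) + 14 * 0 / (1 - r) +
          6 * s ^ M / (1 - s) + 0 * Lc) := by
    intro M hM
    have tl := (t0.add t3).add_const (κ * Real.log 2)
    have te : Tendsto (fun k : ℕ => κ * (31 * Real.log (1 + ε) + 7 * Real.log (1 / r) +
        14 * r ^ k / (1 - r) + 6 * s ^ M / (1 - s) + 9 / ((k : ℝ) + 1) * Lc)) atTop
        (𝓝 (κ * (31 * Real.log (1 + ε) + 7 * Real.log (1 / r) + 14 * 0 / (1 - r) +
          6 * s ^ M / (1 - s) + 0 * Lc))) := by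
      have a1 : Tendsto (fun k : ℕ => r ^ k) atTop (𝓝 0) :=
        tendsto_pow_atTop_nhds_zero_of_lt_one hr.le hr1
      have a2 : Tendsto (fun k : ℕ => (9 : ℝ) / ((k : ℝ) + 1)) atTop (𝓝 0) := by
        have := (tendsto_one_div_add_atTop_nhds_zero_nat (𝕜 := ℝ)).const_mul 9
        rw [mul_zero] at this
        refine this.congr fun k => ?_
        ring
      have a3 := ((((a1.const_mul 14).div_const (1 - r)).const_add
        (31 * Real.log (1 + ε) + 7 * Real.log (1 / r))).add_const (6 * s ^ M / (1 - s))).add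
        (a2.mul_const Lc)
      exact a3.const_mul κ
    have tr := (t1.add t3').add te
    refine le_of_tendsto_of_tendsto tl tr ?_
    filter_upwards [hθ.tendsto_atTop.eventually (hc2 M)] with k hk
    obtain ⟨Y, φ, l, hφ, hl, ⟨L⟩⟩ := hc1 (θ k)
    have hkl : k < l := lt_of_le_of_lt hθ.le_apply hl
    haveI := c'.normal (k + 1)
    haveI := c'.fin (k + 1)
    have key := level_ineq R o ho g hg brg sgd fin idx ho' (c.N (θ k)) (c.le _) (c.fin _) Y φ hφ l L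
      (by omega) M hM hk (c'.N (k + 1)) (hcc k) ε r s hε hε1 hr hr1 hs hs1 h101 hsε
    have hidx : (0 : ℝ) < ((c'.N (k + 1)).index : ℝ) := by
      exact_mod_cast Nat.pos_of_ne_zero (c'.fin (k + 1)).index_ne_zero
    have he := err_le (s := s) hr hr1 hε l M k hkl
    have hmul : (κ * ((c'.N (k + 1)).index : ℝ)) * err ε r s l M ≤ (κ * ((c'.N (k + 1)).index : ℝ)) *
        (31 * Real.log (1 + ε) + 7 * Real.log (1 / r) + 14 * r ^ k / (1 - r) +
      6 * s ^ M / (1 - s) + 9 / ((k : ℝ) + 1) * Lc) :=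
      mul_le_mul_of_nonneg_left he (by positivity)
    have key2 := key.trans (add_le_add_right hmul _)
    have key3 := div_le_div_of_nonneg_right key2 hidx.le
    have e1 : (ldet2 C (c'.N (k + 1)) 0 (ε ^ 3) + ldet2 C (c'.N (k + 1)) 3 (ε ^ 3) +
        (κ * ((c'.N (k + 1)).index : ℝ)) * Real.log 2) / ((c'.N (k + 1)).index : ℝ) =
        ldet2 C (c'.N (k + 1)) 0 (ε ^ 3) / ((c'.N (k + 1)).index : ℝ) +
        ldet2 C (c'.N (k + 1)) 3 (ε ^ 3) / ((c'.N (k + 1)).index : ℝ) + κ * Real.log 2 := by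
      field_simp
    have e2 : ∀ A : ℝ, (ldet C (c'.N (k + 1)) 1 ε + ldet C (c'.N (k + 1)) 3 ε +
        (κ * ((c'.N (k + 1)).index : ℝ)) * A) / ((c'.N (k + 1)).index : ℝ) =
        ldet C (c'.N (k + 1)) 1 ε / ((c'.N (k + 1)).index : ℝ) +
        ldet C (c'.N (k + 1)) 3 ε / ((c'.N (k + 1)).index : ℝ) + κ * A := by
      intro A
      field_simp
    have key4 := (e1.symm.le.trans key3).trans (e2 _).le
    exact key4
  have tM : Tendsto (fun M : ℕ => ∫ x, Real.log (x + ε) ∂(μ 1) + ∫ x, Real.log (x + ε) ∂(μ 3) +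
        κ * (31 * Real.log (1 + ε) + 7 * Real.log (1 / r) + 14 * 0 / (1 - r) +
          6 * s ^ M / (1 - s) + 0 * Lc)) atTop
      (𝓝 (∫ x, Real.log (x + ε) ∂(μ 1) + ∫ x, Real.log (x + ε) ∂(μ 3) +
        κ * (31 * Real.log (1 + ε) + 7 * Real.log (1 / r) + 14 * 0 / (1 - r) +
          6 * 0 / (1 - s) + 0 * Lc))) := by
    have a1 : Tendsto (fun k : ℕ => s ^ k) atTop (𝓝 0) :=
      tendsto_pow_atTop_nhds_zero_of_lt_one hs.le hs1
    exact ((((((a1.const_mul 6).div_const (1 - s)).const_add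
      (31 * Real.log (1 + ε) + 7 * Real.log (1 / r) + 14 * 0 / (1 - r))).add_const
      (0 * Lc)).const_mul κ).const_add _)
  have hfin := ge_of_tendsto tM (by filter_upwards [eventually_ge_atTop 2] with M hM using stepM M hM)
  refine hfin.trans (le_of_eq ?_)
  ring

end

end Pool.LU.FK
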