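import Pool.Agent.H87.LUY.End
import Pool.Agent.H95.LUY.FUI
import Pool.Agent.H95.LUY.CPX
import Pool.Agent.H64.LUY.CNT
import Pool.Agent.H64.LUY.BND
import Pool.Agent.H41.LUY.AAT
import Pool.Agent.H41.LUY.STX
import Pool.Agent.H41.LUY.TTL
import Pool.Agent.H65.LUY.ZZT
import Pool.Agent.H65.LUY.XIE
import Pool.Agent.H78.LUY.ACU
import Pool.Agent.H66.LUY.AXI
import Pool.Agent.H66.LUY.LOG
import Pool.Agent.H66.LUY.SXD
import Pool.Agent.H80.LUY.SGD
import Pool.Agent.H80.LUY.CUT
import Pool.Agent.H80.LUY.SCB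
import Pool.Agent.H97.LUY.BRG
import Pool.Agent.H97.LUY.SPL
import Pool.Agent.H97.LUY.BT0
import Pool.Agent.H22.LUY.IXI
import Pool.Agent.H22.LUY.MSR
import Pool.Agent.H22.LUY.RHO
import Pool.Agent.H47.LUY.DMO
import Pool.Agent.H47.LUY.SWP
import Pool.Agent.H47.LUY.PRD
import Pool.Agent.H47.LUY.TRI
import Pool.Agent.H47.LUY.LEV
import Pool.Agent.H47.LUY.EQD
import Pool.Agent.H47.LUY.CHN

/-!
Project LU: the closed aspherical 3-manifold with nonzero torsion, and the disproof of Q1.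
-/

set_option autoImplicit false

noncomputable section

namespace Pool.LU.FK

theorem ttl_main : TTLStmt := ttl log_thm dmo

theorem fin_main : FINStmt :=
  fin_ineq (fui prd tri swp (scb dmo)) cpx cnt bnd (aat ttl_main) (zzt ttl_main cnt)
    (acu lev (cut dmo) bnd eqd) (axi dmo) (xie (stx (sxd dmo) log_thm dmo))

/-- Part Y: a closed orientable aspherical 3-manifold which is `L2`-acyclic and has nonzero
`L2`-torsion. -/
theorem partR_fk : ∃ Y : PartR, Orient Y.Y :=
  end_fk brg sgd fin_main spl bt0 ixi msr rho chn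

/-- Q1 is false, also for orientable manifolds. -/
theorem not_q1Or : ¬ Q1Or := by
  obtain ⟨Y, hY⟩ := partR_fk
  exact not_q1Or_of_R Y hY

/-- Q1 is false. -/
theorem not_q1 : ¬ Pool.H3.L2.Q1 := not_q1_of_not_q1Or not_q1Or

end Pool.LU.FK
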