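import Pool.Agent.H87.LUY.Defs

/-!
Project LU, part Y, Fuglede-Kadison route: statements of the modules.
-/

set_option autoImplicit false
set_option linter.unusedVariables false

open scoped BigOperators Topology
open Filter MeasureTheory Pool.H3.L2 Pool.H29.L2

noncomputable section

namespace Pool.LU.FK

/-! ### determinants -/

/-- DMO: the determinant is monotone on positive semidefinite matrices -/
def DMOStmt : Prop := ∀ (I : Type) [Fintype I] [DecidableEq I] (A B : Matrix I I ℝ),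
  A.PosSemidef → (B - A).PosSemidef → A.det ≤ B.det

/-- SWP: `det (Z Zᵀ + η) = det (Zᵀ Z + η)` for matrices with the same numbers of rows and columns -/
def SWPStmt : Prop := ∀ (I J : Type) [Fintype I] [DecidableEq I] [Fintype J] [DecidableEq J]
  (Z : Matrix I J ℝ) (η : ℝ), Fintype.card I = Fintype.card J → gd η Z = gd η Z.transpose

/-- PRD: products -/
def PRDStmt : Prop := ∀ (I J K : Type) [Fintype I] [DecidableEq I] [Fintype J] [DecidableEq J]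
  [Fintype K] (X : Matrix I J ℝ) (Z : Matrix J K ℝ) (ε δ : ℝ), 0 < ε → 0 < δ →
  Fintype.card I = Fintype.card J →
  gd (ε * δ) (X * Z) ≤ gd ε X.transpose * gd δ Z

/-- TRI: block triangular matrices -/
def TRIStmt : Prop := ∀ (I J : Type) [Fintype I] [DecidableEq I] [Fintype J]
  (Z : Matrix I J ℝ) (p : I → Prop) (q : J → Prop) [DecidablePred p] [DecidablePred q] (η : ℝ),
  0 < η → (∀ i j, p i → ¬ q j → Z i j = 0) →
  gd η (Matrix.of fun i j => if (p i ↔ q j) then Z i j else 0) ≤ gd η Z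

/-- LEV: block triangular matrices with many blocks -/
def LEVStmt : Prop := ∀ (I J : Type) [Fintype I] [DecidableEq I] [Fintype J]
  (Z : Matrix I J ℝ) (r : I → ℕ) (c : J → ℕ) (η : ℝ), 0 < η → (∀ i j, Z i j ≠ 0 → r i ≤ c j) →
  gd η (Matrix.of fun i j => if r i = c j then Z i j else 0) ≤ gd η Z

/-- CUT: changing some rows -/
def CUTStmt : Prop := ∀ (I J : Type) [Fintype I] [DecidableEq I] [Fintype J]
  (Z Z' : Matrix I J ℝ) (S : I → Prop) [DecidablePred S] (η K : ℝ), 0 < η → 0 < K →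
  (∀ i j, ¬ S i → Z i j = Z' i j) → (K • (1 : Matrix I I ℝ) - Z' * Z'.transpose).PosSemidef →
  η ^ (Fintype.card {i // S i}) * gd η Z' ≤ (K + η) ^ (Fintype.card {i // S i}) * gd η Z

/-- SCH: the Schur test -/
def SCHStmt : Prop := ∀ (I J : Type) [Fintype I] [DecidableEq I] [Fintype J]
  (Z : Matrix I J ℝ) (R C : ℝ), (∀ i, ∑ j, |Z i j| ≤ R) → (∀ j, ∑ i, |Z i j| ≤ C) →
  ((R * C) • (1 : Matrix I I ℝ) - Z * Z.transpose).PosSemidef

/-- SCB: a bound by a Schur complement -/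
def SCBStmt : Prop := ∀ (I J K : Type) [Fintype I] [DecidableEq I] [Fintype J] [DecidableEq J]
  [Fintype K] (b : Matrix I J ℝ) (a : Matrix I K ℝ) (B ε : ℝ), 0 < ε → 0 ≤ B →
  (B • (1 : Matrix I I ℝ) - b * b.transpose).PosSemidef →
  (Matrix.fromBlocks (1 : Matrix J J ℝ) b.transpose b (b * b.transpose + a * a.transpose) +
    ε • (1 : Matrix (J ⊕ I) (J ⊕ I) ℝ)).det ≤
  (1 + ε) ^ (Fintype.card J) * gd (ε * (1 + B)) a

/-- LOG: the determinant of `1 - r T` for an orthogonal matrix `T` whose powers have trace zero -/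
def LOGStmt : Prop := ∀ (I : Type) [Fintype I] [DecidableEq I] (T : Matrix I I ℝ) (r : ℝ) (M : ℕ),
  T.transpose * T = 1 → 0 ≤ r → r < 1 → 1 ≤ M →
  (∀ n, 1 ≤ n → n < M → (T ^ n).trace = 0) →
  Real.exp (-((Fintype.card I : ℝ) * r ^ M / (1 - r))) ≤ (1 - r • T).det ∧
  (1 - r • T).det ≤ Real.exp ((Fintype.card I : ℝ) * r ^ M / (1 - r))

/-- FUI: the main inequality for a based complex `c3 → c2 → c1 → c0` -/
def FUIStmt : Prop := ∀ (c0 c1a c1b c2a c2b c3 : Type) [Fintype c0] [DecidableEq c0]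
  [Fintype c1a] [DecidableEq c1a] [Fintype c1b] [DecidableEq c1b] [Fintype c2a] [DecidableEq c2a]
  [Fintype c2b] [DecidableEq c2b] [Fintype c3] [DecidableEq c3]
  (D1 : Matrix (c1a ⊕ c1b) c0 ℝ) (D2 : Matrix (c2a ⊕ c2b) (c1a ⊕ c1b) ℝ)
  (D3 : Matrix c3 (c2a ⊕ c2b) ℝ) (B ε : ℝ), 0 < ε → 0 ≤ B → D2 * D1 = 0 → D3 * D2 = 0 →
  Fintype.card c1b = Fintype.card c0 → Fintype.card c2b = Fintype.card c3 →
  Fintype.card c1a = Fintype.card c2a →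
  (B • (1 : Matrix c0 c0 ℝ) - D1.transpose * D1).PosSemidef →
  (B • (1 : Matrix c3 c3 ℝ) - D3 * D3.transpose).PosSemidef →
  ((D1.transpose * D1) ^ 2 + (ε ^ 3) • (1 : Matrix c0 c0 ℝ)).det *
    ((D3 * D3.transpose) ^ 2 + (ε ^ 3) • (1 : Matrix c3 c3 ℝ)).det *
    gd (ε ^ 3) (D2.toBlocks₁₁.transpose) ≤
  (D1 * D1.transpose + D2.transpose * D2 + ε • (1 : Matrix (c1a ⊕ c1b) (c1a ⊕ c1b) ℝ)).det *
    (D3 * D3.transpose + ε • (1 : Matrix c3 c3 ℝ)).det *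
    (1 + ε) ^ (Fintype.card c1a + Fintype.card c3 + Fintype.card c2a + Fintype.card c0) *
    gd (ε * (1 + B)) (Matrix.of fun (i : c0) (j : c1b) => D1 (Sum.inr j) i) *
    gd (ε * (1 + B)) (Matrix.of fun (i : c2b) (j : c3) => D3 j (Sum.inr i))

/-! ### two determinants over finite sets with involutions -/

/-- TTL: two involutions which join the levels alternately -/
def TTLStmt : Prop := ∀ (Q : Type) [Fintype Q] [DecidableEq Q] (ρ1 ρ2 : Q → Q) (l : ℕ)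
  (ν : Q → ZMod (2 * l)) (r δ : ℝ), 1 ≤ l → (∀ y, ρ1 (ρ1 y) = y) → (∀ y, ρ2 (ρ2 y) = y) →
  (∀ y, (ν y).val % 2 = 1 → ν (ρ1 y) = ν y - 1 ∧ ν (ρ2 y) = ν y + 1) →
  (∀ y, (ν y).val % 2 = 0 → ν (ρ1 y) = ν y + 1 ∧ ν (ρ2 y) = ν y - 1) →
  0 < r → r < 1 → 0 ≤ δ → δ ≤ (1 - r) ^ 2 / r →
  (Matrix.of (fun y y' : Q => ((if y' = y then 1 else 0) - (if y' = ρ1 y then 1 else 0)) +
    ((if y' = y then 1 else 0) - (if y' = ρ2 y then (1 : ℝ) else 0))) +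
    δ • (1 : Matrix Q Q ℝ)).det ≤
  (1 / r) ^ (Fintype.card Q) *
    Real.exp (2 * (Fintype.card Q : ℝ) * r ^ (2 * l) / (1 - r))

/-- SXD: the determinant identity with the scattering matrix (`B`: incidence matrix of the complete
graph with 4 vertices without one row; `J`: an involution of the darts without fixed points;
`R = 2 Bᵀ L⁻¹ B - 1`) -/
def SXDStmt : Prop := ∀ (Q F K : Type) [Fintype Q] [DecidableEq Q] [Fintype F] [DecidableEq F]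
  [Fintype K] [DecidableEq K] (ρ : F → Q → Q) (B : Matrix K F ℝ) (s : ℝ),
  (∀ f q, ρ f (ρ f q) = q) → (∀ f q, ρ f q ≠ q) → Fintype.card F = 6 → Fintype.card K = 3 →
  (∀ k k', ∑ f, B k f * B k' f = if k = k' then 3 else -1) → 0 < s → s < 1 →
  ∃ (T : Matrix (Q × F) (Q × F) ℝ), T.transpose * T = 1 ∧
    (∀ p q, T p q = (2 * ((1 / 4) * ((∑ k, B k p.2 * B k q.2) +
      (∑ k, B k p.2) * (∑ k, B k q.2))) - (if p.2 = q.2 then 1 else 0)) *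
      (if q.1 = ρ q.2 p.1 then 1 else 0)) ∧
    2 ^ (Fintype.card Q) * (1 - s • T).det ≤
    (Matrix.of (fun p q : K × Q => ∑ f, B p.1 f * B q.1 f *
      ((if q.2 = p.2 then 1 else 0) - (if q.2 = ρ f p.2 then 1 else 0))) +
      (2 * ((1 - s) ^ 2 / s)) • (1 : Matrix (K × Q) (K × Q) ℝ)).det

/-- STX: the lower bound -/
def STXStmt : Prop := ∀ (Q F K : Type) [Fintype Q] [DecidableEq Q] [Fintype F] [DecidableEq F]
  [Fintype K] [DecidableEq K] (ρ : F → Q → Q) (B : Matrix K F ℝ) (s η : ℝ) (M : ℕ),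
  (∀ f q, ρ f (ρ f q) = q) → (∀ f q, ρ f q ≠ q) → Fintype.card F = 6 → Fintype.card K = 3 →
  (∀ k k', ∑ f, B k f * B k' f = if k = k' then 3 else -1) →
  (∀ f, ∑ k, (B k f) ^ 2 + (∑ k, B k f) ^ 2 = 2) → 0 < s → s < 1 → (1 - s) ^ 2 / s ≤ η →
  1 ≤ M → (∀ w : List F, w ≠ [] → w.length < M → w.IsChain (· ≠ ·) →
    ∀ q : Q, w.foldl (fun q f => ρ f q) q ≠ q) →
  2 ^ (Fintype.card Q) * Real.exp (-(6 * (Fintype.card Q : ℝ) * s ^ M / (1 - s))) ≤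
    (Matrix.of (fun p q : K × Q => ∑ f, B p.1 f * B q.1 f *
      ((if q.2 = p.2 then 1 else 0) - (if q.2 = ρ f p.2 then 1 else 0))) +
      (2 * η) • (1 : Matrix (K × Q) (K × Q) ℝ)).det

/-! ### the complex of a finite level -/

/-- CPX: it is a complex -/
def CPXStmt : Prop := ∀ Y : YSet, D2 Y * D1 Y = 0 ∧ D3 Y * D2 Y = 0

/-- CNT: the numbers of cells -/
def CNTStmt : Prop := ∀ Y : YSet, Fintype.card (C1a Y) = 12 * Fintype.card Y.X ∧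
  Fintype.card (C1b Y) = Fintype.card Y.X ∧ Fintype.card (C2a Y) = 12 * Fintype.card Y.X ∧
  Fintype.card (C2b Y) = 6 * Fintype.card Y.X ∧ Fintype.card (C3 Y) = 6 * Fintype.card Y.X ∧
  Fintype.card (CC Y) = 3 * Fintype.card Y.X

/-- BND: bounds for the norms -/
def BNDStmt : Prop := ∀ Y : YSet,
  ((100 : ℝ) • (1 : Matrix Y.X Y.X ℝ) - (D1 Y).transpose * D1 Y).PosSemidef ∧
  ((100 : ℝ) • (1 : Matrix (C3 Y) (C3 Y) ℝ) - D3 Y * (D3 Y).transpose).PosSemidef ∧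
  ∀ (Z : Matrix (C1a Y) (C2a Y) ℝ), (∀ i j, Z i j = AT Y i j ∨ Z i j = 0) →
    ((100 : ℝ) • (1 : Matrix (C1a Y) (C1a Y) ℝ) - Z * Z.transpose).PosSemidef

/-- EQD: the levels have the same numbers of elements -/
def EQDStmt : Prop := ∀ (Y : YSet) (l : ℕ) (L : Lvl Y l), 1 ≤ l → ∀ n : ZMod (2 * l),
  2 * l * Fintype.card {y // L.ν y = n} = Fintype.card Y.X

/-- AAT: the block of `v1`, `v2` in degree 1 -/
def AATStmt : Prop := ∀ (Y : YSet) (l : ℕ) (L : Lvl Y l) (r δ : ℝ), 1 ≤ l → 0 < r → r < 1 → 0 ≤ δ →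
  δ ≤ (1 - r) ^ 2 / r →
  gd δ (Matrix.of fun (i : Y.X) (j : C1b Y) => D1 Y (Sum.inr j) i) ≤
  (1 / r) ^ (Fintype.card Y.X) *
    Real.exp (2 * (Fintype.card Y.X : ℝ) * r ^ (2 * l) / (1 - r))

/-- ZZT: the block of the pairs (edge, face) in degree 3 -/
def ZZTStmt : Prop := ∀ (Y : YSet) (l : ℕ) (L : Lvl Y l) (r δ : ℝ), 1 ≤ l → 0 < r → r < 1 → 0 ≤ δ →
  δ ≤ (1 - r) ^ 2 / r →
  gd δ (Matrix.of fun (i : C2b Y) (j : C3 Y) => D3 Y j (Sum.inr i)) ≤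
  (1 / r) ^ (6 * Fintype.card Y.X) *
    Real.exp (12 * (Fintype.card Y.X : ℝ) * r ^ (2 * l) / (1 - r))

/-- ACU: cutting at the level `-1` and the block triangular estimate -/
def ACUStmt : Prop := ∀ (Y : YSet) (l : ℕ) (L : Lvl Y l) (η : ℝ), 1 ≤ l → 0 < η →
  Real.log (gd η (A0 L)) ≤ Real.log (gd η (AT Y)) +
    9 * (Fintype.card Y.X : ℝ) / l * Real.log ((100 + η) / η)

/-- AXI: elimination of the edges and faces -/
def AXIStmt : Prop := ∀ (Y : YSet) (l : ℕ) (L : Lvl Y l) (η : ℝ), 1 ≤ l → 0 < η →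
  (Xi Y + (2 * η) • (1 : Matrix (CC Y) (CC Y) ℝ)).det ≤ gd η (A0 L)

/-- XIE: the lower bound for the determinant of `Ξ` -/
def XIEStmt : Prop := ∀ (Y : YSet) (l : ℕ) (L : Lvl Y l) (M : ℕ) (s η : ℝ), 1 ≤ l → 2 ≤ M →
  FreeW Y.ρ M → 0 < s → s < 1 → (1 - s) ^ 2 / s ≤ η →
  Real.exp ((Fintype.card Y.X : ℝ) * Real.log 2 -
    6 * (Fintype.card Y.X : ℝ) * s ^ M / (1 - s)) ≤
    (Xi Y + (2 * η) • (1 : Matrix (CC Y) (CC Y) ℝ)).det

/-- FIN: the inequality at a finite level -/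
def FINStmt : Prop := ∀ (Y : YSet) (l : ℕ) (L : Lvl Y l) (M : ℕ) (ε r s : ℝ), 1 ≤ l → 2 ≤ M →
  FreeW Y.ρ M → 0 < ε → ε ≤ 1 → 0 < r → r < 1 → 0 < s → s < 1 → 101 * ε ≤ (1 - r) ^ 2 / r →
  (1 - s) ^ 2 / s ≤ ε ^ 3 →
  Real.log ((Lap0 Y) ^ 2 + (ε ^ 3) • (1 : Matrix Y.X Y.X ℝ)).det +
    Real.log ((Lap3 Y) ^ 2 + (ε ^ 3) • (1 : Matrix (C3 Y) (C3 Y) ℝ)).det +
    (Fintype.card Y.X : ℝ) * Real.log 2 ≤
  Real.log (Lap1 Y + ε • (1 : Matrix (C1a Y ⊕ C1b Y) (C1a Y ⊕ C1b Y) ℝ)).det +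
    Real.log (Lap3 Y + ε • (1 : Matrix (C3 Y) (C3 Y) ℝ)).det +
    (Fintype.card Y.X : ℝ) * (31 * Real.log (1 + ε) + 7 * Real.log (1 / r) +
      14 * r ^ (2 * l) / (1 - r) + 6 * s ^ M / (1 - s) + 9 / l * Real.log ((100 + ε ^ 3) / ε ^ 3))

/-! ### the link with the complexes of the covers -/

/-- BRG: the Laplacians of the covers of the cubical complex are the matrices `Lap` up to a signed
bijection of the bases -/
def BRGStmt : Prop := ∀ (W : Type) [Group W] (R : RA SV sadj W) (o : SV → ℕ),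
  Function.Injective o → (∀ u v, nz u < nz v → o u < o v) →
  ∀ (g : (SV → ℤˣ) → W) (hg : ∀ ε, R.χ (g ε) = ε)
  (hD : cubD R g hg o * cubD R g hg o = 0)
  (hdeg : ∀ s t, cubD R g hg o s t ≠ 0 → s.1.1.card = t.1.1.card + 1)
  (N : Subgroup R.χ.ker) [N.Normal] [N.FiniteIndex] (h1 : N.map R.χ.ker.subtype ≤ R.χ.ker)
  (h2 : (N.map R.χ.ker.subtype).FiniteIndex) (Y : YSet)
  (φ : Y.X ≃ (cosX R (N.map R.χ.ker.subtype) h1 h2).X),
  (∀ v y, φ (Y.ρ v y) = (cosX R (N.map R.χ.ker.subtype) h1 h2).ρ v (φ y)) →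
  let C : BCx (GR R.χ.ker) :=
    { S := CubS sadj, deg := fun s => s.1.1.card, D := cubD R g hg o, deg_D := hdeg, D_D := hD }
  (∃ (e : {u : (C.cover N).S // (C.cover N).deg u = 0} ≃ Y.X) (σ : Y.X → ℤˣ), ∀ s t,
    ((lapZk (C.cover N) 0 s t : ℤ) : ℝ) = (σ (e s) : ℤ) * (σ (e t) : ℤ) * Lap0 Y (e s) (e t)) ∧
  (∃ (e : {u : (C.cover N).S // (C.cover N).deg u = 1} ≃ C1a Y ⊕ C1b Y)
    (σ : C1a Y ⊕ C1b Y → ℤˣ), ∀ s t,
    ((lapZk (C.cover N) 1 s t : ℤ) : ℝ) = (σ (e s) : ℤ) * (σ (e t) : ℤ) * Lap1 Y (e s) (e t)) ∧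
  (∃ (e : {u : (C.cover N).S // (C.cover N).deg u = 3} ≃ C3 Y) (σ : C3 Y → ℤˣ), ∀ s t,
    ((lapZk (C.cover N) 3 s t : ℤ) : ℝ) = (σ (e s) : ℤ) * (σ (e t) : ℤ) * Lap3 Y (e s) (e t))

/-- SGD: signed bijections do not change determinants -/
def SGDStmt : Prop := ∀ (I J : Type) [Fintype I] [DecidableEq I] [Fintype J] [DecidableEq J]
  (A : Matrix I I ℝ) (B : Matrix J J ℝ) (e : I ≃ J) (σ : J → ℤˣ),
  (∀ s t, A s t = (σ (e s) : ℤ) * (σ (e t) : ℤ) * B (e s) (e t)) → ∀ ε : ℝ,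
  (A + ε • (1 : Matrix I I ℝ)).det = (B + ε • (1 : Matrix J J ℝ)).det ∧
  (A ^ 2 + ε • (1 : Matrix I I ℝ)).det = (B ^ 2 + ε • (1 : Matrix J J ℝ)).det

/-- CHN: a chain of normal subgroups with level functions and free actions of the faces -/
def CHNStmt : Prop := ∀ (W : Type) [Group W] (R : RA SV sadj W), ∃ c : NChain R,
  (∀ i, ∃ (Y : YSet) (φ : Y.X ≃ (c.X i).X) (l : ℕ), (∀ v y, φ (Y.ρ v y) = (c.X i).ρ v (φ y)) ∧
    i < l ∧ Nonempty (Lvl Y l)) ∧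
  ∀ M : ℕ, ∀ᶠ i in atTop, FreeW (c.X i).ρ M

/-- BT0: the Betti number in degree 0 -/
def BT0Stmt : Prop := ∀ (G : Type) [Group G] (C : BCx (GR G)), C.IsRes → ∀ (N : Subgroup G)
  [N.Normal] [N.FiniteIndex], (C.cover N).betti ℝ 0 ≤ 1

/-- IXI: the index tends to infinity -/
def IXIStmt : Prop := ∀ (G : Type) [Group G] (c : ResChain G),
  Tendsto (fun i => ((c.N i).index : ℝ)) atTop atTop

/-- SPL: convergence of the determinants of the finite levels -/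
def SPLStmt : Prop := ∀ (G : Type) [Group G] (C : BCx (GR G)) (c : ResChain G) (k : ℕ)
  (μ : Measure ℝ), C.IsSpectral k μ → ∀ ε : ℝ, 0 < ε →
  Tendsto (fun i => Real.log (((lapZk (C.cover (c.N i)) k).map (Int.cast : ℤ → ℝ) +
    ε • (1 : Matrix _ _ ℝ)).det) / ((c.N i).index : ℝ)) atTop (𝓝 (∫ x, Real.log (x + ε) ∂μ)) ∧
  Tendsto (fun i => Real.log ((((lapZk (C.cover (c.N i)) k).map (Int.cast : ℤ → ℝ)) ^ 2 +
    ε • (1 : Matrix _ _ ℝ)).det) / ((c.N i).index : ℝ)) atTop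
    (𝓝 (∫ x, Real.log (x ^ 2 + ε) ∂μ))

/-- MSR: the measures: integrability, absence of an atom, and the limit of the inequality -/
def MSRStmt : Prop := ∀ (R κ a : ℝ) (μ0 μ1 μ3 : Measure ℝ) (e : ℝ → ℝ), Pool.H29.Mom.On R μ0 →
  Pool.H29.Mom.On R μ1 → Pool.H29.Mom.On R μ3 → 0 < κ → μ0 {0} = 0 → μ3 {0} = 0 →
  Integrable Real.log μ0 → Integrable Real.log μ3 → Tendsto e (𝓝[>] 0) (𝓝 0) →
  (∀ᶠ ε in 𝓝[>] (0 : ℝ), ∫ x, Real.log (x ^ 2 + ε ^ 3) ∂μ0 + ∫ x, Real.log (x ^ 2 + ε ^ 3) ∂μ3 +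
    κ * (a - e ε) ≤ ∫ x, Real.log (x + ε) ∂μ1 + ∫ x, Real.log (x + ε) ∂μ3) →
  μ1 {0} = 0 ∧ Integrable Real.log μ1 ∧
  2 * ∫ x, Real.log x ∂μ0 + ∫ x, Real.log x ∂μ3 + κ * a ≤ ∫ x, Real.log x ∂μ1

/-- RHO: the torsion of a three-dimensional acyclic complex -/
def RHOStmt : Prop := ∀ (G : Type) [Group G] (C : BCx (GR G)) (μ : ℕ → Measure ℝ),
  (∀ s, C.deg s ≤ 3) → (∀ j, C.IsSpectral j (μ j)) → (∀ j, μ j {0} = 0) →
  (∀ j, Integrable Real.log (μ j)) →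
  2 * C.rho μ = 2 * ∫ x, Real.log x ∂(μ 0) + ∫ x, Real.log x ∂(μ 3) - ∫ x, Real.log x ∂(μ 1)

end Pool.LU.FK
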